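import Mathlib
import Pool.Agent.R488.TM

/-!
# Comparing the states of the Thue-Morse-twisted Fibonacci sequence

`cr m n = X m * Y n - X n * Y m` compares the ratios `X m / Y m` and `X n / Y n`, where
`X n = |h (4 n)|` and `Y n = |h (4 n + 1)|`.  A step with sign `s` multiplies `cr` by `s`, and a
step with sign `1` always leads above a step with sign `-1`.  From this the extreme ratios at the
multiples of `2 ^ K` are found for every `K`.
-/

set_option autoImplicit false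

namespace Pool.Agent.Run7.h921.TMR

open Pool.Agent.R488.TM

/-- The cross product of the states with indices `m` and `n`. -/
def cr (m n : ℕ) : ℤ := X m * Y n - X n * Y m

lemma cr_anti (m n : ℕ) : cr m n = -cr n m := by unfold cr; ring

lemma cr_zero_right (m : ℕ) : cr m 0 = X m := by unfold cr; rw [X_zero, Y_zero]; ring

lemma cr_zero_left (m : ℕ) : cr 0 m = -X m := by unfold cr; rw [X_zero, Y_zero]; ring

lemma cr_succ {m n : ℕ} {s : ℤ} (hm : t (m + 1) * t m = s) (hn : t (n + 1) * t n = s) :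
    cr (m + 1) (n + 1) = s * cr m n := by
  unfold cr
  rw [X_succ, X_succ, Y_succ, Y_succ, hm, hn]
  ring

lemma cr_succ_pm {m n : ℕ} (hm : t (m + 1) * t m = 1) (hn : t (n + 1) * t n = -1) :
    0 ≤ cr (m + 1) (n + 1) := by
  obtain ⟨a1, a2, -, -⟩ := XY_pos m
  obtain ⟨b1, b2, -, -⟩ := XY_pos n
  unfold cr
  rw [X_succ, X_succ, Y_succ, Y_succ, hm, hn]
  have h1 : 0 ≤ X m * X n := mul_nonneg a1 b1
  have h2 : 0 ≤ X m * Y n := mul_nonneg a1 (by omega)
  have h3 : 0 ≤ X n * Y m := mul_nonneg b1 (by omega)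
  nlinarith

/-- Inside a dyadic block the comparison changes only by the sign `t j`. -/
lemma cr_block {L m n : ℕ} (hm : 2 ^ L ∣ m) (hn : 2 ^ L ∣ n) :
    ∀ j : ℕ, j < 2 ^ L → cr (m + j) (n + j) = t j * cr m n := by
  intro j
  induction j with
  | zero => intro _; rw [Nat.add_zero, Nat.add_zero, t_zero, one_mul]
  | succ j ih =>
    intro hj
    have h1 := ih (by omega)
    have e : ∀ m : ℕ, 2 ^ L ∣ m → t (m + j + 1) * t (m + j) = t (j + 1) * t j := by
      intro m hm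
      rw [Nat.add_assoc, t_add_dvd hm hj, t_add_dvd hm (by omega : j < 2 ^ L)]
      linear_combination t (j + 1) * t j * t_sq m
    rw [← Nat.add_assoc, ← Nat.add_assoc, cr_succ (e m hm) (e n hn), h1]
    linear_combination t (j + 1) * cr m n * t_sq j

lemma t_pred (K : ℕ) : t (2 ^ K - 1) = (-1) ^ K := by
  induction K with
  | zero => simp [t_zero]
  | succ K ih =>
    have h1 : 1 ≤ 2 ^ K := Nat.one_le_two_pow
    have e : 2 ^ (K + 1) - 1 = 2 * (2 ^ K - 1) + 1 := by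
      rw [pow_succ]; omega
    rw [e, t_odd, ih, pow_succ]
    ring

lemma blk_idx (K n : ℕ) : 2 ^ K * (n + 1) = 2 ^ K * n + (2 ^ K - 1) + 1 := by
  have h1 : 1 ≤ 2 ^ K := Nat.one_le_two_pow
  rw [mul_add, mul_one]
  omega

lemma blk_sign (K n : ℕ) : t (2 ^ K * n + (2 ^ K - 1) + 1) * t (2 ^ K * n + (2 ^ K - 1)) =
    (-1) ^ K * (t (n + 1) * t n) := by
  have h1 : 1 ≤ 2 ^ K := Nat.one_le_two_pow
  rw [← blk_idx]
  have h2 := t_add K (n + 1) 0 (by omega)
  rw [Nat.add_zero, t_zero, mul_one] at h2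
  rw [h2, t_add K n (2 ^ K - 1) (by omega), t_pred]
  ring

/-- One block with the same sign. -/
lemma blk {K n n' : ℕ} (s : ℤ) (h : (-1) ^ K * (t (n + 1) * t n) = s)
    (h' : (-1) ^ K * (t (n' + 1) * t n') = s) :
    cr (2 ^ K * (n + 1)) (2 ^ K * (n' + 1)) = s * (-1) ^ K * cr (2 ^ K * n) (2 ^ K * n') := by
  have h1 : 1 ≤ 2 ^ K := Nat.one_le_two_pow
  rw [blk_idx K n, blk_idx K n', cr_succ ((blk_sign K n).trans h) ((blk_sign K n').trans h'),
    cr_block (Dvd.intro _ rfl) (Dvd.intro _ rfl) _ (by omega), t_pred]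
  ring

lemma blk_pm {K n n' : ℕ} (h : (-1) ^ K * (t (n + 1) * t n) = 1)
    (h' : (-1) ^ K * (t (n' + 1) * t n') = -1) :
    0 ≤ cr (2 ^ K * (n + 1)) (2 ^ K * (n' + 1)) := by
  rw [blk_idx K n, blk_idx K n']
  exact cr_succ_pm ((blk_sign K n).trans h) ((blk_sign K n').trans h')

lemma tt_odd (u : ℕ) : t (2 * u + 1) * t (2 * u) = -1 := by
  rw [t_odd, t_even]
  linear_combination -t_sq u

lemma t_vals : t 0 = 1 ∧ t 1 = -1 ∧ t 2 = -1 ∧ t 3 = 1 ∧ t 4 = -1 ∧ t 5 = 1 ∧ t 6 = 1 := by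
  have h0 : t 0 = 1 := t_zero
  have h1 : t 1 = -1 := by have := t_odd 0; rw [h0] at this; exact this
  have h2 : t 2 = -1 := by have := t_even 1; rw [h1] at this; exact this
  have h3 : t 3 = 1 := by have := t_odd 1; rw [h1] at this; exact this
  have h4 : t 4 = -1 := by have := t_even 2; rw [h2] at this; exact this
  have h5 : t 5 = 1 := by have := t_odd 2; rw [h2] at this; exact this
  have h6 : t 6 = 1 := by have := t_even 3; rw [h3] at this; exact this
  exact ⟨h0, h1, h2, h3, h4, h5, h6⟩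

/-- For even `K` the largest ratio at multiples of `2 ^ K` is the one at `2 ^ K * 2`. -/
lemma sup_even {K : ℕ} (hK : Even K) (n : ℕ) : cr (2 ^ K * n) (2 ^ K * 2) ≤ 0 := by
  have e : (-1 : ℤ) ^ K = 1 := hK.neg_one_pow
  obtain ⟨t0, t1, t2, -, -, -, -⟩ := t_vals
  rcases Nat.eq_zero_or_pos n with rfl | hn
  · rw [mul_zero, cr_zero_left]
    have := (XY_pos (2 ^ K * 2)).1
    omega
  · obtain ⟨n, rfl⟩ : ∃ m, n = m + 1 := ⟨n - 1, by omega⟩
    have s2 : (-1 : ℤ) ^ K * (t (1 + 1) * t 1) = 1 := by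
      rw [e, show 1 + 1 = 2 by norm_num, t2, t1]; norm_num
    rcases tt_cases (n + 1) n with h | h
    · rcases Nat.even_or_odd' n with ⟨w, rfl | rfl⟩
      · rw [tt_odd] at h; norm_num at h
      · have h1 := blk (K := K) (n := 2 * w + 1) (n' := 1) 1 (by rw [e, h]; norm_num) s2
        have h2 := blk (K := K) (n := 2 * w) (n' := 0) (-1) (by rw [e, tt_odd]; norm_num)
          (by rw [e, show 0 + 1 = 1 by norm_num, t0, t1]; norm_num)
        rw [mul_zero, cr_zero_right] at h2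
        rw [show (2 : ℕ) = 1 + 1 by norm_num] at *
        rw [h1, show (1 : ℕ) = 0 + 1 by norm_num, h2, e]
        have := (XY_pos ((1 + 1) ^ K * ((1 + 1) * w))).1
        omega
    · have h1 := blk_pm (K := K) (n := 1) (n' := n) s2 (by rw [e, h]; norm_num)
      rw [cr_anti] at h1
      have h3 : (2 : ℕ) ^ K * 2 = 2 ^ K * (1 + 1) := by norm_num
      rw [h3]
      omega

/-- For even `K` the smallest ratio at positive multiples of `2 ^ K` is the one at `2 ^ K * 3`. -/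
lemma inf_even {K : ℕ} (hK : Even K) (n : ℕ) : 0 ≤ cr (2 ^ K * (n + 1)) (2 ^ K * 3) := by
  have e : (-1 : ℤ) ^ K = 1 := hK.neg_one_pow
  obtain ⟨-, -, t2, t3, -, -, -⟩ := t_vals
  have s3 : (-1 : ℤ) ^ K * (t (2 + 1) * t 2) = -1 := by
    rw [e, show 2 + 1 = 3 by norm_num, t3, t2]; norm_num
  rcases tt_cases (n + 1) n with h | h
  · exact blk_pm (K := K) (n := n) (n' := 2) (by rw [e, h]; norm_num) s3
  · have h1 := blk (K := K) (n := n) (n' := 2) (-1) (by rw [e, h]; norm_num) s3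
    have h2 := sup_even hK n
    have h3 : cr (2 ^ K * (n + 1)) (2 ^ K * 3) = cr (2 ^ K * (n + 1)) (2 ^ K * (2 + 1)) := by
      norm_num
    rw [h3, h1, e]
    omega

/-- For odd `K` the largest ratio at multiples of `2 ^ K` is the one at `2 ^ K`. -/
lemma sup_odd {K : ℕ} (hK : Odd K) (n : ℕ) : cr (2 ^ K * n) (2 ^ K * 1) ≤ 0 := by
  have e : (-1 : ℤ) ^ K = -1 := hK.neg_one_pow
  obtain ⟨t0, t1, -, -, -, -, -⟩ := t_vals
  rcases Nat.eq_zero_or_pos n with rfl | hn
  · rw [mul_zero, cr_zero_left]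
    have := (XY_pos (2 ^ K * 1)).1
    omega
  · obtain ⟨n, rfl⟩ : ∃ m, n = m + 1 := ⟨n - 1, by omega⟩
    have s1 : (-1 : ℤ) ^ K * (t (0 + 1) * t 0) = 1 := by
      rw [e, show 0 + 1 = 1 by norm_num, t0, t1]; norm_num
    have h3 : cr (2 ^ K * (n + 1)) (2 ^ K * 1) = cr (2 ^ K * (n + 1)) (2 ^ K * (0 + 1)) := by
      norm_num
    rw [h3]
    rcases tt_cases (n + 1) n with h | h
    · have h1 := blk_pm (K := K) (n := 0) (n' := n) s1 (by rw [e, h]; norm_num)
      rw [cr_anti] at h1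
      omega
    · have h1 := blk (K := K) (n := n) (n' := 0) 1 (by rw [e, h]; norm_num) s1
      rw [mul_zero, cr_zero_right] at h1
      rw [h1, e]
      have := (XY_pos (2 ^ K * n)).1
      omega

/-- For odd `K` the ratio at `2 ^ K * 5` is the smallest one at odd multiples of `2 ^ K`. -/
lemma inf_odd_odd {K : ℕ} (hK : Odd K) (w : ℕ) :
    0 ≤ cr (2 ^ K * (2 * w + 1)) (2 ^ K * 5) := by
  have e : (-1 : ℤ) ^ K = -1 := hK.neg_one_pow
  obtain ⟨-, -, -, -, t4, t5, -⟩ := t_vals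
  have s5 : (-1 : ℤ) ^ K * (t (4 + 1) * t 4) = 1 := by
    rw [e, show 4 + 1 = 5 by norm_num, t4, t5]; norm_num
  have h1 := blk (K := K) (n := 2 * w) (n' := 4) 1 (by rw [e, tt_odd]; norm_num) s5
  have h2 := sup_even (K := K + 1) (by exact hK.add_one) w
  have h3 : cr (2 ^ K * (2 * w + 1)) (2 ^ K * 5) = cr (2 ^ K * (2 * w + 1)) (2 ^ K * (4 + 1)) := by
    norm_num
  have h4 : 2 ^ (K + 1) * w = 2 ^ K * (2 * w) := by rw [pow_succ]; ring
  have h5 : 2 ^ (K + 1) * 2 = 2 ^ K * 4 := by rw [pow_succ]; ring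
  rw [h4, h5] at h2
  rw [h3, h1, e]
  omega

/-- For odd `K` the smallest ratio at positive multiples of `2 ^ K` is the one at `2 ^ K * 6`. -/
lemma inf_odd {K : ℕ} (hK : Odd K) (n : ℕ) : 0 ≤ cr (2 ^ K * (n + 1)) (2 ^ K * 6) := by
  have e : (-1 : ℤ) ^ K = -1 := hK.neg_one_pow
  obtain ⟨-, -, -, -, -, t5, t6⟩ := t_vals
  have s6 : (-1 : ℤ) ^ K * (t (5 + 1) * t 5) = -1 := by
    rw [e, show 5 + 1 = 6 by norm_num, t5, t6]; norm_num
  rcases Nat.even_or_odd' n with ⟨w, rfl | rfl⟩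
  · exact blk_pm (K := K) (n := 2 * w) (n' := 5) (by rw [e, tt_odd]; norm_num) s6
  · have h2 := inf_even (K := K + 1) (by exact hK.add_one) w
    have h4 : 2 ^ (K + 1) * (w + 1) = 2 ^ K * (2 * w + 1 + 1) := by rw [pow_succ]; ring
    have h5 : 2 ^ (K + 1) * 3 = 2 ^ K * 6 := by rw [pow_succ]; ring
    rw [h4, h5] at h2
    exact h2

/-- The largest ratio in a residue class modulo `2 ^ K`. -/
lemma exists_max (K j : ℕ) (hj : j < 2 ^ K) : ∃ n₀ : ℕ, 1 ≤ 2 ^ K * n₀ + j ∧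
    ∀ n : ℕ, 0 ≤ cr (2 ^ K * n₀ + j) (2 ^ K * n + j) := by
  have h1 : 1 ≤ 2 ^ K := Nat.one_le_two_pow
  have hc : ∀ n₀ n : ℕ, cr (2 ^ K * n₀ + j) (2 ^ K * n + j) = t j * cr (2 ^ K * n₀) (2 ^ K * n) :=
    fun n₀ n => cr_block (Dvd.intro _ rfl) (Dvd.intro _ rfl) j hj
  rcases t_cases j with h | h
  · rcases Nat.even_or_odd K with hK | hK
    · refine ⟨2, by omega, fun n => ?_⟩
      rw [hc, h, cr_anti]
      have := sup_even hK n
      omega
    · refine ⟨1, by omega, fun n => ?_⟩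
      rw [hc, h, cr_anti]
      have := sup_odd hK n
      omega
  · refine ⟨0, ?_, fun n => ?_⟩
    · rcases Nat.eq_zero_or_pos j with rfl | hj0
      · rw [t_zero] at h; norm_num at h
      · omega
    · rw [hc, h, mul_zero, cr_zero_left]
      have := (XY_pos (2 ^ K * n)).1
      omega

/-- The smallest ratio in a residue class modulo `2 ^ K` (without the index `0`). -/
lemma exists_min (K j : ℕ) (hj : j < 2 ^ K) : ∃ n₀ : ℕ, 1 ≤ 2 ^ K * n₀ + j ∧
    ∀ n : ℕ, 1 ≤ 2 ^ K * n + j → cr (2 ^ K * n₀ + j) (2 ^ K * n + j) ≤ 0 := by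
  have h1 : 1 ≤ 2 ^ K := Nat.one_le_two_pow
  have hc : ∀ n₀ n : ℕ, cr (2 ^ K * n₀ + j) (2 ^ K * n + j) = t j * cr (2 ^ K * n₀) (2 ^ K * n) :=
    fun n₀ n => cr_block (Dvd.intro _ rfl) (Dvd.intro _ rfl) j hj
  rcases t_cases j with h | h
  · rcases Nat.eq_zero_or_pos j with rfl | hj0
    · have hp : ∀ n : ℕ, 1 ≤ 2 ^ K * n + 0 → ∃ m, n = m + 1 := by
        intro n hn
        rcases Nat.eq_zero_or_pos n with rfl | h0
        · rw [mul_zero] at hn; omega
        · exact ⟨n - 1, by omega⟩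
      rcases Nat.even_or_odd K with hK | hK
      · refine ⟨3, by omega, fun n hn => ?_⟩
        obtain ⟨m, rfl⟩ := hp n hn
        rw [hc, h, cr_anti]
        have := inf_even hK m
        omega
      · refine ⟨6, by omega, fun n hn => ?_⟩
        obtain ⟨m, rfl⟩ := hp n hn
        rw [hc, h, cr_anti]
        have := inf_odd hK m
        omega
    · refine ⟨0, by omega, fun n _ => ?_⟩
      rw [hc, h, mul_zero, cr_zero_left]
      have := (XY_pos (2 ^ K * n)).1
      omega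
  · rcases Nat.even_or_odd K with hK | hK
    · refine ⟨2, by omega, fun n _ => ?_⟩
      rw [hc, h, cr_anti]
      have := sup_even hK n
      omega
    · refine ⟨1, by omega, fun n _ => ?_⟩
      rw [hc, h, cr_anti]
      have := sup_odd hK n
      omega

/-- The largest ratio at the last place of the blocks of length `2 ^ K` that are followed by a
step with sign `-1`. -/
lemma exists_max_last (K : ℕ) : ∃ n₀ : ℕ, 1 ≤ 2 ^ K * n₀ + (2 ^ K - 1) ∧
    t (2 ^ K * n₀ + (2 ^ K - 1) + 1) * t (2 ^ K * n₀ + (2 ^ K - 1)) = -1 ∧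
    ∀ n : ℕ, t (2 ^ K * n + (2 ^ K - 1) + 1) * t (2 ^ K * n + (2 ^ K - 1)) = -1 →
      0 ≤ cr (2 ^ K * n₀ + (2 ^ K - 1)) (2 ^ K * n + (2 ^ K - 1)) := by
  have h1 : 1 ≤ 2 ^ K := Nat.one_le_two_pow
  obtain ⟨-, -, t2, t3, -, t5, t6⟩ := t_vals
  have hc : ∀ n₀ n : ℕ, cr (2 ^ K * n₀ + (2 ^ K - 1)) (2 ^ K * n + (2 ^ K - 1)) =
      t (2 ^ K - 1) * cr (2 ^ K * n₀) (2 ^ K * n) :=
    fun n₀ n => cr_block (Dvd.intro _ rfl) (Dvd.intro _ rfl) _ (by omega)
  rcases Nat.even_or_odd K with hK | hK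
  · have e : (-1 : ℤ) ^ K = 1 := hK.neg_one_pow
    refine ⟨2, by omega, ?_, fun n _ => ?_⟩
    · rw [blk_sign, e, show 2 + 1 = 3 by norm_num, t2, t3]; norm_num
    · rw [hc, t_pred, e, cr_anti]
      have := sup_even hK n
      omega
  · have e : (-1 : ℤ) ^ K = -1 := hK.neg_one_pow
    refine ⟨5, by omega, ?_, fun n hn => ?_⟩
    · rw [blk_sign, e, show 5 + 1 = 6 by norm_num, t5, t6]; norm_num
    · rw [blk_sign, e] at hn
      rcases Nat.even_or_odd' n with ⟨w, rfl | rfl⟩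
      · rw [tt_odd] at hn; norm_num at hn
      · rw [hc, t_pred, e, cr_anti]
        have := inf_odd_odd hK w
        omega

end Pool.Agent.Run7.h921.TMR
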