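import Mathlib
import Pool.Agent.R488.TM
import Pool.Agent.Run7.h921.TMR.Core

/-!
# The ratios of consecutive terms of the Thue-Morse-twisted Fibonacci sequence

Every residue class modulo a power of two has a least ratio.
-/

set_option autoImplicit false

namespace Pool.Agent.Run7.h921.TMR

open Pool.Agent.R488.TM

/-- `rho n = |h n| / |h (n - 1)|`. -/
noncomputable def rho (n : ℕ) : ℝ := |(h n : ℝ)| / |(h (n - 1) : ℝ)|

lemma abs_t (n : ℕ) : |t n| = 1 := by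
  rcases t_cases n with h | h <;> rw [h] <;> rfl

lemma abs_h (n : ℕ) : |h (4 * n)| = X n ∧ |h (4 * n + 1)| = Y n ∧ |h (4 * n + 2)| = X n + Y n ∧
    |h (4 * n + 3)| = X n := by
  obtain ⟨h0, h1, h2, h3⟩ := h_values n
  obtain ⟨p1, p2, -, -⟩ := XY_pos n
  rw [h0, h1, h2, h3, Y_succ]
  refine ⟨?_, ?_, ?_, ?_⟩
  · rw [abs_neg, abs_of_nonneg p1]
  · rw [abs_mul, abs_t, one_mul, abs_of_nonneg (by omega)]
  · rw [abs_neg, abs_of_nonneg (by omega)]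
  · rw [abs_neg, abs_mul, abs_t, one_mul, abs_of_nonneg p1]

lemma cast_abs_h (n : ℕ) : |(h (4 * n) : ℝ)| = X n ∧ |(h (4 * n + 1) : ℝ)| = Y n ∧
    |(h (4 * n + 2) : ℝ)| = X n + Y n ∧ |(h (4 * n + 3) : ℝ)| = X n := by
  obtain ⟨h0, h1, h2, h3⟩ := abs_h n
  refine ⟨?_, ?_, ?_, ?_⟩
  · rw [← Int.cast_abs, h0]
  · rw [← Int.cast_abs, h1]
  · rw [← Int.cast_abs, h2]; push_cast; ring
  · rw [← Int.cast_abs, h3]

lemma rho1 (m : ℕ) : rho (4 * m + 0 + 1) = (Y m : ℝ) / X m := by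
  show |(h (4 * m + 1) : ℝ)| / |(h (4 * m) : ℝ)| = _
  rw [(cast_abs_h m).1, (cast_abs_h m).2.1]

lemma rho2 (m : ℕ) : rho (4 * m + 1 + 1) = ((X m : ℝ) + Y m) / Y m := by
  unfold rho
  rw [Nat.add_sub_cancel, (cast_abs_h m).2.1, show 4 * m + 1 + 1 = 4 * m + 2 by ring,
    (cast_abs_h m).2.2.1]

lemma rho3 (m : ℕ) : rho (4 * m + 2 + 1) = (X m : ℝ) / ((X m : ℝ) + Y m) := by
  unfold rho
  rw [Nat.add_sub_cancel, (cast_abs_h m).2.2.1, show 4 * m + 2 + 1 = 4 * m + 3 by ring,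
    (cast_abs_h m).2.2.2]

lemma rho4 (m : ℕ) : rho (4 * m + 3 + 1) = (X (m + 1) : ℝ) / X m := by
  unfold rho
  rw [Nat.add_sub_cancel, (cast_abs_h m).2.2.2, show 4 * m + 3 + 1 = 4 * (m + 1) by ring,
    (cast_abs_h (m + 1)).1]

lemma pos_cast {m : ℕ} (hm : 1 ≤ m) : (0 : ℝ) < X m ∧ (0 : ℝ) < Y m := by
  obtain ⟨-, h2, -, h4⟩ := XY_pos m
  have h5 := h4 hm
  exact ⟨by exact_mod_cast (by omega : 0 < X m), by exact_mod_cast (by omega : 0 < Y m)⟩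

lemma cmp_real {p q : ℕ} (hc : 0 ≤ cr p q) : (X q : ℝ) * Y p ≤ X p * Y q := by
  have h1 : X q * Y p ≤ X p * Y q := by unfold cr at hc; omega
  exact_mod_cast h1

lemma le1 {p q : ℕ} (hp : 1 ≤ p) (hq : 1 ≤ q) (hc : 0 ≤ cr p q) :
    rho (4 * p + 0 + 1) ≤ rho (4 * q + 0 + 1) := by
  rw [rho1, rho1, div_le_div_iff₀ (pos_cast hp).1 (pos_cast hq).1]
  have := cmp_real hc
  nlinarith

lemma le2 {p q : ℕ} (hp : 1 ≤ p) (hq : 1 ≤ q) (hc : cr p q ≤ 0) :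
    rho (4 * p + 1 + 1) ≤ rho (4 * q + 1 + 1) := by
  rw [rho2, rho2, div_le_div_iff₀ (pos_cast hp).2 (pos_cast hq).2]
  have hc' : 0 ≤ cr q p := by rw [cr_anti]; omega
  have := cmp_real hc'
  nlinarith

lemma le3 {p q : ℕ} (hp : 1 ≤ p) (hq : 1 ≤ q) (hc : cr p q ≤ 0) :
    rho (4 * p + 2 + 1) ≤ rho (4 * q + 2 + 1) := by
  obtain ⟨a1, a2⟩ := pos_cast hp
  obtain ⟨b1, b2⟩ := pos_cast hq
  rw [rho3, rho3, div_le_div_iff₀ (by linarith) (by linarith)]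
  have hc' : 0 ≤ cr q p := by rw [cr_anti]; omega
  have := cmp_real hc'
  nlinarith

lemma le4 {p q : ℕ} (hp : 1 ≤ p) (hq : 1 ≤ q) (hc : 0 ≤ cr p q)
    (hs : t (p + 1) * t p = t (q + 1) * t q) :
    rho (4 * p + 3 + 1) ≤ rho (4 * q + 3 + 1) := by
  obtain ⟨a1, a2⟩ := pos_cast hp
  obtain ⟨b1, b2⟩ := pos_cast hq
  rw [rho4, rho4, div_le_div_iff₀ a1 b1, X_succ, X_succ, hs]
  push_cast
  have := cmp_real hc
  nlinarith

lemma X_odd (u : ℕ) : X (2 * u + 1) = Y (2 * u) := by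
  rw [X_succ, tt_odd]
  ring

lemma bounds (u : ℕ) : 2 * X (2 * u) ≤ 3 * Y (2 * u) ∧ X (2 * u + 1) ≤ Y (2 * u + 1) ∧
    2 * Y (2 * u + 1) ≤ 5 * X (2 * u + 1) ∧ Y (2 * u + 2) ≤ 2 * X (2 * u + 2) := by
  have h1 : 2 * X (2 * u) ≤ 3 * Y (2 * u) := by
    rcases Nat.eq_zero_or_pos u with rfl | hu
    · show 2 * X 0 ≤ 3 * Y 0
      rw [X_zero, Y_zero]; norm_num
    · obtain ⟨v, rfl⟩ : ∃ v, u = v + 1 := ⟨u - 1, by omega⟩
      have e : 2 * (v + 1) = 2 * v + 1 + 1 := by ring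
      obtain ⟨p1, p2, -, -⟩ := XY_pos (2 * v)
      rw [e, X_succ (2 * v + 1), Y_succ (2 * v + 1), X_odd, Y_succ (2 * v)]
      rcases tt_cases (2 * v + 1 + 1) (2 * v + 1) with h | h <;> rw [h] <;> omega
  obtain ⟨p1, p2, p3, -⟩ := XY_pos (2 * u)
  refine ⟨h1, ?_, ?_, ?_⟩
  · rw [X_odd, Y_succ]; omega
  · rw [X_odd, Y_succ]; omega
  · rw [show 2 * u + 2 = 2 * u + 1 + 1 by ring, X_succ (2 * u + 1), Y_succ (2 * u + 1), X_odd,
      Y_succ (2 * u)]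
    rcases tt_cases (2 * u + 1 + 1) (2 * u + 1) with h | h <;> rw [h] <;> omega

lemma ratio (m : ℕ) (hm : 1 ≤ m) : 2 * Y m ≤ 5 * X m := by
  rcases Nat.even_or_odd' m with ⟨u, rfl | rfl⟩
  · obtain ⟨v, rfl⟩ : ∃ v, u = v + 1 := ⟨u - 1, by omega⟩
    have h := (bounds v).2.2.2
    have hY := (XY_pos (2 * v + 2)).1
    rw [show 2 * (v + 1) = 2 * v + 2 by ring]
    omega
  · exact (bounds u).2.2.1

lemma le4' {p q : ℕ} (hp : 1 ≤ p) (hq : 1 ≤ q) (hs : t (p + 1) * t p = -1)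
    (hs' : t (q + 1) * t q = 1) :
    rho (4 * p + 3 + 1) ≤ rho (4 * q + 3 + 1) := by
  obtain ⟨a1, a2⟩ := pos_cast hp
  obtain ⟨b1, b2⟩ := pos_cast hq
  rw [rho4, rho4, div_le_div_iff₀ a1 b1, X_succ, X_succ, hs, hs']
  have h1 : (2 : ℝ) * Y p ≤ 5 * X p := by exact_mod_cast ratio p hp
  have h2 : (X q : ℝ) ≤ 2 * Y q := by exact_mod_cast (XY_pos q).2.2.1
  push_cast
  have h3 : (2 : ℝ) * Y p * X q ≤ 5 * X p * X q := mul_le_mul_of_nonneg_right h1 b1.le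
  have h4 : (X p : ℝ) * X q ≤ X p * (2 * Y q) := mul_le_mul_of_nonneg_left h2 a1.le
  nlinarith

/-- The least ratio in a residue class modulo `4 * 2 ^ K`. -/
lemma exists_least (K i : ℕ) (hi : i < 4 * 2 ^ K) : ∃ n₀ : ℕ, 4 ≤ 4 * 2 ^ K * n₀ + i ∧
    ∀ n : ℕ, 4 ≤ 4 * 2 ^ K * n + i →
      rho (4 * 2 ^ K * n₀ + i + 1) ≤ rho (4 * 2 ^ K * n + i + 1) := by
  obtain ⟨j, r, hr, rfl⟩ : ∃ j r, r < 4 ∧ i = 4 * j + r :=
    ⟨i / 4, i % 4, Nat.mod_lt _ (by norm_num), (Nat.div_add_mod i 4).symm⟩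
  have hj : j < 2 ^ K := by omega
  have e : ∀ n : ℕ, 4 * 2 ^ K * n + (4 * j + r) = 4 * (2 ^ K * n + j) + r := by
    intro n; ring
  simp only [e]
  have hr' : r = 0 ∨ r = 1 ∨ r = 2 ∨ r = 3 := by omega
  rcases hr' with rfl | rfl | rfl | rfl
  · obtain ⟨n₀, h1, h2⟩ := exists_max K j hj
    exact ⟨n₀, by omega, fun n hn => le1 h1 (by omega) (h2 n)⟩
  · obtain ⟨n₀, h1, h2⟩ := exists_min K j hj
    exact ⟨n₀, by omega, fun n hn => le2 h1 (by omega) (h2 n (by omega))⟩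
  · obtain ⟨n₀, h1, h2⟩ := exists_min K j hj
    exact ⟨n₀, by omega, fun n hn => le3 h1 (by omega) (h2 n (by omega))⟩
  · rcases (by omega : j + 1 < 2 ^ K ∨ j = 2 ^ K - 1) with hj1 | rfl
    · obtain ⟨n₀, h1, h2⟩ := exists_max K j hj
      refine ⟨n₀, by omega, fun n hn => le4 h1 (by omega) (h2 n) ?_⟩
      rw [Nat.add_assoc, Nat.add_assoc, t_add K n₀ _ hj1, t_add K n₀ _ hj, t_add K n _ hj1,
        t_add K n _ hj]
      linear_combination t (j + 1) * t j * (t_sq n₀ - t_sq n)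
    · obtain ⟨n₀, h1, h2, h3⟩ := exists_max_last K
      refine ⟨n₀, by omega, fun n hn => ?_⟩
      rcases tt_cases (2 ^ K * n + (2 ^ K - 1) + 1) (2 ^ K * n + (2 ^ K - 1)) with h | h
      · exact le4' h1 (by omega) h2 h
      · exact le4 h1 (by omega) (h3 n h) (h2.trans h.symm)

/-- The least ratio in a residue class modulo `2 ^ k`. -/
lemma exists_least' (k i : ℕ) (hk : 1 ≤ k) (hi : i < 2 ^ k) : ∃ n₀ : ℕ, 4 ≤ 2 ^ k * n₀ + i ∧
    ∀ n : ℕ, 4 ≤ 2 ^ k * n + i → rho (2 ^ k * n₀ + i + 1) ≤ rho (2 ^ k * n + i + 1) := by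
  rcases Nat.lt_or_ge k 2 with h | h
  · obtain rfl : k = 1 := by omega
    rw [pow_one] at *
    obtain ⟨n₀, h1, h2⟩ := exists_least 0 i (by rw [pow_zero]; omega)
    obtain ⟨n₁, h3, h4⟩ := exists_least 0 (i + 2) (by rw [pow_zero]; omega)
    rw [pow_zero, mul_one] at h1 h3
    simp only [pow_zero, mul_one] at h2 h4
    rcases le_total (rho (4 * n₀ + i + 1)) (rho (4 * n₁ + (i + 2) + 1)) with hle | hle
    · refine ⟨2 * n₀, by omega, fun n hn => ?_⟩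
      rw [show 2 * (2 * n₀) + i + 1 = 4 * n₀ + i + 1 by ring]
      rcases Nat.even_or_odd' n with ⟨w, rfl | rfl⟩
      · have := h2 w (by omega)
        rwa [show 2 * (2 * w) + i + 1 = 4 * w + i + 1 by ring]
      · have := h4 w (by omega)
        rw [show 2 * (2 * w + 1) + i + 1 = 4 * w + (i + 2) + 1 by ring]
        exact hle.trans this
    · refine ⟨2 * n₁ + 1, by omega, fun n hn => ?_⟩
      rw [show 2 * (2 * n₁ + 1) + i + 1 = 4 * n₁ + (i + 2) + 1 by ring]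
      rcases Nat.even_or_odd' n with ⟨w, rfl | rfl⟩
      · have := h2 w (by omega)
        rw [show 2 * (2 * w) + i + 1 = 4 * w + i + 1 by ring]
        exact hle.trans this
      · have := h4 w (by omega)
        rwa [show 2 * (2 * w + 1) + i + 1 = 4 * w + (i + 2) + 1 by ring]
  · obtain ⟨K, rfl⟩ : ∃ K, k = K + 2 := ⟨k - 2, by omega⟩
    have e : 2 ^ (K + 2) = 4 * 2 ^ K := by rw [pow_add]; ring
    rw [e] at hi ⊢
    exact exists_least K i hi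

/-- The least ratio in the class of `1` modulo an even power of two. -/
lemma least_one (K n : ℕ) (hK : Even K) (hn : 1 ≤ n) :
    rho (4 * (2 ^ K * 2) + 0 + 1) ≤ rho (4 * (2 ^ K * n) + 0 + 1) := by
  have h1 : 1 ≤ 2 ^ K := Nat.one_le_two_pow
  refine le1 (by omega) (Nat.mul_pos h1 hn) ?_
  rw [cr_anti]
  have := sup_even hK n
  omega

lemma rho_rat (n : ℕ) : ∃ q : ℚ, rho n = (q : ℝ) :=
  ⟨|(h n : ℚ)| / |(h (n - 1) : ℚ)|, by unfold rho; push_cast; rfl⟩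

end Pool.Agent.Run7.h921.TMR
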